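import Pool.Agent.Lib_helper82.SV.Hom

/-! # Two cases: compact operators and traces (MP_a94db7_an) -/

set_option autoImplicit false

open Filter Topology Set Metric Module End

namespace Pool.Agent.SpectralVisible

/-! ### Compact operators -/

section

variable {H : Type} [NormedAddCommGroup H] [InnerProductSpace ℂ H] [CompleteSpace H]

theorem finite_spectrum {T : H →L[ℂ] H} (hT : IsCompactOperator T) (hs : IsSelfAdjoint T)
    {δ : ℝ} (hδ : 0 < δ) : {z : ℂ | z ∈ spectrum ℂ T ∧ δ ≤ ‖z‖}.Finite := by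
  by_contra hinf
  have hinf : {z : ℂ | z ∈ spectrum ℂ T ∧ δ ≤ ‖z‖}.Infinite := hinf
  set z : ℕ → ℂ := fun k => (hinf.natEmbedding _ k : ℂ) with hz
  have hzinj : Function.Injective z := fun a b h =>
    (hinf.natEmbedding _).injective (Subtype.ext h)
  have hz1 : ∀ k, z k ∈ spectrum ℂ T := fun k => (hinf.natEmbedding _ k).2.1
  have hz2 : ∀ k, δ ≤ ‖z k‖ := fun k => (hinf.natEmbedding _ k).2.2
  have hz0 : ∀ k, z k ≠ 0 := fun k h0 => by
    have := hz2 k
    rw [h0, norm_zero] at this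
    linarith
  have hsym : (T : H →ₗ[ℂ] H).IsSymmetric := hs.isSymmetric
  have hev : ∀ k, ∃ v : H, ‖v‖ = 1 ∧ T v = z k • v := by
    intro k
    have h1 := (hT.hasEigenvalue_iff_mem_spectrum (hz0 k)).mpr (hz1 k)
    obtain ⟨v, hv⟩ := h1.exists_hasEigenvector
    have hv0 : v ≠ 0 := hv.2
    have hv1 : T v = z k • v := hv.apply_eq_smul
    refine ⟨(‖v‖⁻¹ : ℂ) • v, ?_, ?_⟩
    · rw [norm_smul, norm_inv, Complex.norm_real, norm_norm]
      exact inv_mul_cancel₀ (norm_ne_zero_iff.mpr hv0)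
    · rw [map_smul, hv1, smul_comm]
  choose v hv1 hv2 using hev
  have horth : ∀ a b, a ≠ b → inner ℂ (T (v a)) (T (v b)) = 0 := by
    intro a b hab
    have h1 := hsym.orthogonalFamily_eigenspaces (i := z a) (j := z b) (fun h => hab (hzinj h))
      ⟨v a, mem_eigenspace_iff.mpr (hv2 a)⟩ ⟨v b, mem_eigenspace_iff.mpr (hv2 b)⟩
    rw [hv2, hv2, inner_smul_left, inner_smul_right]
    have h2 : inner ℂ (v a) (v b) = 0 := h1
    rw [h2, mul_zero, mul_zero]
  obtain ⟨K, hK, hK'⟩ := hT.image_closedBall_subset_compact 1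
  obtain ⟨y, _, ψ, hψ, hψy⟩ := hK.tendsto_subseq (x := fun k => T (v k))
    (fun k => hK' ⟨v k, by simp [hv1], rfl⟩)
  have hc := hψy.cauchySeq
  rw [Metric.cauchySeq_iff'] at hc
  obtain ⟨N, hN⟩ := hc δ hδ
  have h1 : ‖T (v (ψ (N + 1))) - T (v (ψ N))‖ < δ := by
    simpa [dist_eq_norm] using hN (N + 1) (Nat.le_succ N)
  have hne : ψ (N + 1) ≠ ψ N := fun h => by
    have := hψ.injective h
    omega
  have h2 : ‖T (v (ψ (N + 1))) - T (v (ψ N))‖ ^ 2 =
      ‖T (v (ψ (N + 1)))‖ ^ 2 + ‖T (v (ψ N))‖ ^ 2 := by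
    rw [@norm_sub_sq ℂ, horth _ _ hne]
    simp
  have h3 : δ ≤ ‖T (v (ψ (N + 1)))‖ := by
    rw [hv2, norm_smul, hv1, mul_one]
    exact hz2 _
  nlinarith [norm_nonneg (T (v (ψ (N + 1))) - T (v (ψ N))), norm_nonneg (T (v (ψ N)))]

theorem compact_not_connected {T : H →L[ℂ] H} (hT : IsCompactOperator T) (hs : IsSelfAdjoint T)
    (h0 : T ≠ 0) : ¬ (IsPreconnected (spectrum ℂ T) ∧ (0 : ℂ) ∈ spectrum ℂ T) := by
  rintro ⟨hc, hz⟩
  have h1 : ∃ μ : ℂ, HasEigenvalue (T : End ℂ H) μ ∧ μ ≠ 0 := by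
    by_contra hne
    push Not at hne
    exact h0 ((ContinuousLinearMap.eq_zero_of_forall_hasEigenvalue_eq_zero hT hs.isSymmetric).mp hne)
  obtain ⟨μ, hμ, hμ0⟩ := h1
  have hμs : μ ∈ spectrum ℂ T := (hT.hasEigenvalue_iff_mem_spectrum hμ0).mp hμ
  have hpos : 0 < ‖μ‖ := norm_pos_iff.mpr hμ0
  have h2 : IsPreconnected ((fun z : ℂ => ‖z‖) '' spectrum ℂ T) :=
    hc.image _ continuous_norm.continuousOn
  have h3 : Set.Icc (0 : ℝ) ‖μ‖ ⊆ (fun z : ℂ => ‖z‖) '' spectrum ℂ T :=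
    h2.Icc_subset ⟨0, hz, norm_zero⟩ ⟨μ, hμs, rfl⟩
  have h4 := finite_spectrum hT hs (half_pos hpos)
  have h5 : Set.Icc (‖μ‖ / 2) ‖μ‖ ⊆
      (fun z : ℂ => ‖z‖) '' {z : ℂ | z ∈ spectrum ℂ T ∧ ‖μ‖ / 2 ≤ ‖z‖} := by
    rintro x ⟨hx1, hx2⟩
    obtain ⟨w, hw, hwx⟩ := h3 ⟨by linarith, hx2⟩
    exact ⟨w, ⟨hw, by simpa [hwx] using hx1⟩, hwx⟩
  have h6 : (Set.Icc (‖μ‖ / 2) ‖μ‖).Finite := (h4.image _).subset h5
  exact (Set.Icc_infinite (by linarith)) h6

end

/-! ### Cases -/

section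

variable {C : Type} [NonUnitalCStarAlgebra C]

/-- An ideal of a C*-algebra is seen if a representation on a Hilbert space maps some element of it to
a non-zero compact operator. -/
theorem seen_of_compact {I : Submodule ℂ C} (hI : IsClosedIdeal I) (H : Type)
    [NormedAddCommGroup H] [InnerProductSpace ℂ H] [CompleteSpace H]
    (π : C →⋆ₙₐ[ℂ] (H →L[ℂ] H)) (s : C) (hs : s ∈ I) (hc : IsCompactOperator (π s))
    (h0 : π s ≠ 0) : Seen I := by
  have hnt : Nontrivial (H →L[ℂ] H) := ⟨⟨π s, 0, h0⟩⟩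
  have hπ : Continuous π :=
    AddMonoidHomClass.continuous_of_bound π 1 fun a => by
      simpa only [one_mul] using NonUnitalStarAlgHom.norm_apply_le π a
  refine Or.inl ⟨H →L[ℂ] H, inferInstance, inferInstance, inferInstance, hnt,
    (π : C →ₙₐ[ℂ] (H →L[ℂ] H)), 0, Matrix.of fun _ _ => star s * s, hπ,
    fun _ _ => (hI.2 s hs (star s)).2, ?_⟩
  have e1 : π (star s * s) = star (π s) * π s := by rw [map_mul, map_star]
  have hcomp : IsCompactOperator (star (π s) * π s) := hc.clm_comp (star (π s))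
  have hne : star (π s) * π s ≠ 0 := by
    intro h1
    rw [CStarRing.star_mul_self_eq_zero_iff] at h1
    exact h0 h1
  have key := compact_not_connected hcomp (IsSelfAdjoint.star_mul_self _) hne
  -- matrices of size one
  let e : Matrix (Fin 1) (Fin 1) (H →L[ℂ] H) ≃ₐ[ℂ] (H →L[ℂ] H) :=
    AlgEquiv.ofAlgHom
      { toFun := fun M => M 0 0
        map_one' := rfl
        map_mul' := fun M N => by simp [Matrix.mul_apply]
        map_zero' := rfl
        map_add' := fun M N => rfl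
        commutes' := fun r => by simp [Matrix.algebraMap_eq_diagonal] }
      { toFun := fun x => Matrix.of fun _ _ => x
        map_one' := by ext i j; fin_cases i; fin_cases j; simp
        map_mul' := fun x y => by ext i j; simp [Matrix.mul_apply]
        map_zero' := by ext i j; simp
        map_add' := fun x y => by ext i j; simp
        commutes' := fun r => by
          ext i j
          fin_cases i
          fin_cases j
          simp [Matrix.algebraMap_eq_diagonal] }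
      (by ext x; simp)
      (by ext M i j; fin_cases i; fin_cases j; simp)
  have e2 : spectrum ℂ ((Matrix.of fun _ _ => star s * s : Matrix (Fin 1) (Fin 1) C).map
      (π : C →ₙₐ[ℂ] (H →L[ℂ] H))) = spectrum ℂ (star (π s) * π s) := by
    rw [← AlgEquiv.spectrum_eq e]
    congr 1
  exact fun h1 => key (by rwa [e2] at h1)

/-- An ideal of a C*-algebra is seen if a bounded trace does not vanish on it. -/
theorem seen_of_trace {I : Submodule ℂ C} (τ : C →L[ℂ] ℂ) (hτ : ∀ x y, τ (x * y) = τ (y * x))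
    (s : C) (hs : s ∈ I) (h0 : τ s ≠ 0) : Seen I :=
  Or.inr (Or.inl ⟨C, inferInstance, NonUnitalAlgHom.id ℂ C, τ, s, continuous_id, hτ, hs, h0⟩)

end

end Pool.Agent.SpectralVisible
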