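import Mathlib

/-! # Ideals which are seen by spectra, traces or homotopy (MP_a94db7_an): definitions

All notions below refer to a continuous homomorphism `q` from the Banach algebra `C` to a Banach
algebra `E`. If `s` is a matrix over `C`, then `s.map q` is the matrix over `E` with the
entries `q (s i j)`. -/

set_option autoImplicit false

open Topology

namespace Pool.Agent.SpectralVisible

variable {C : Type} [NonUnitalNormedRing C] [NormedSpace ℂ C] [IsScalarTower ℂ C C]
  [SMulCommClass ℂ C C]

/-- `I` is a closed two-sided ideal of `C`. -/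
def IsClosedIdeal (I : Submodule ℂ C) : Prop :=
  IsClosed (I : Set C) ∧ ∀ x ∈ I, ∀ y : C, x * y ∈ I ∧ y * x ∈ I

/-- Some matrix `s` with entries in `I` is mapped to a matrix over a unital Banach algebra `E`, the
spectrum of which is not a connected set which contains the origin. (For instance, to a non-zero
idempotent matrix, or, if `E` is the algebra of bounded operators on a Hilbert space, to a non-zero
compact self-adjoint operator.) -/
def SeenBySpectrum (I : Submodule ℂ C) : Prop :=
  ∃ (E : Type) (_ : NormedRing E) (_ : NormedAlgebra ℂ E) (_ : CompleteSpace E) (_ : Nontrivial E)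
    (q : C →ₙₐ[ℂ] E) (n : ℕ) (s : Matrix (Fin (n + 1)) (Fin (n + 1)) C),
    Continuous q ∧ (∀ i j, s i j ∈ I) ∧
      ¬ (IsPreconnected (spectrum ℂ (s.map q)) ∧ (0 : ℂ) ∈ spectrum ℂ (s.map q))

/-- Some bounded trace `τ` of a C*-algebra `E` (a bounded linear functional such that
`τ (x * y) = τ (y * x)`) does not vanish on `q (I)`. -/
def SeenByTrace (I : Submodule ℂ C) : Prop :=
  ∃ (E : Type) (_ : NonUnitalCStarAlgebra E) (q : C →ₙₐ[ℂ] E) (τ : E →L[ℂ] ℂ) (s : C),
    Continuous q ∧ (∀ x y, τ (x * y) = τ (y * x)) ∧ s ∈ I ∧ τ (q s) ≠ 0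

/-- For some compact space `X` and some continuous map `s` from `X` to the matrices with entries in
`I` the matrices `1 + q (s x)` over `E` are invertible for all `x`, but the family of the `1 + q (s x)`
is not homotopic, through families of invertible matrices, to the constant family `1`. -/
def SeenByHomotopy (I : Submodule ℂ C) : Prop :=
  ∃ (E : Type) (_ : NormedRing E) (_ : NormedAlgebra ℂ E) (_ : CompleteSpace E)
    (q : C →ₙₐ[ℂ] E) (n : ℕ) (X : Type) (_ : TopologicalSpace X) (_ : CompactSpace X)
    (s : X → Matrix (Fin n) (Fin n) C),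
    Continuous q ∧ Continuous s ∧ (∀ x i j, s x i j ∈ I) ∧ (∀ x, IsUnit (1 + (s x).map q)) ∧
      ¬ ∃ h : X × unitInterval → Matrix (Fin n) (Fin n) E, Continuous h ∧ (∀ p, IsUnit (h p)) ∧
        ∀ x, h (x, 0) = 1 ∧ h (x, 1) = 1 + (s x).map q

/-- `I` is seen by spectra, by traces or by homotopy. -/
def Seen (I : Submodule ℂ C) : Prop :=
  SeenBySpectrum I ∨ SeenByTrace I ∨ SeenByHomotopy I

end Pool.Agent.SpectralVisible
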