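import Pool.Agent.Lib_helper82.SV.Hom

/-! # Homomorphisms with dense range (MP_a94db7_an) -/

set_option autoImplicit false

open Filter Topology Set Metric

namespace Pool.Agent.SpectralVisible

section

variable {B C : Type} [NonUnitalNormedRing B] [NormedSpace ℂ B] [IsScalarTower ℂ B B]
  [SMulCommClass ℂ B B] [CompleteSpace B]
  [NonUnitalNormedRing C] [NormedSpace ℂ C] [IsScalarTower ℂ C C] [SMulCommClass ℂ C C]
  [CompleteSpace C]

/-- homomorphisms with dense range -/
theorem continuous_of_seen (θ : B →ₙₐ[ℂ] C) (hd : DenseRange θ)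
    (h : ∀ I : Submodule ℂ C, IsClosedIdeal I → I ≠ ⊥ → Seen I) : Continuous θ := by
  refine continuous_of_sep θ ?_
  by_contra hne
  push Not at hne
  obtain ⟨c, hc, hc0⟩ := hne
  have hcl : IsClosedIdeal (sepSub θ) :=
    ⟨isClosed_sep θ, fun x hx y => sep_mul θ hd hx y⟩
  have hne : sepSub θ ≠ ⊥ := by
    intro h0
    have : c ∈ sepSub θ := hc
    rw [h0] at this
    exact hc0 ((Submodule.mem_bot ℂ).mp this)
  rcases h _ hcl hne with h1 | h1 | h1
  · exact not_seenBySpectrum θ (fun x hx => hx) h1
  · exact not_seenByTrace θ (fun x hx => hx) h1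
  · exact not_seenByHomotopy θ (fun x hx => hx) h1

end

section

variable {B A C : Type} [NonUnitalNormedRing B] [NormedSpace ℂ B] [IsScalarTower ℂ B B]
  [SMulCommClass ℂ B B]
  [NonUnitalNormedRing A] [NormedSpace ℂ A] [IsScalarTower ℂ A A] [SMulCommClass ℂ A A]
  [NonUnitalNormedRing C] [NormedSpace ℂ C] [IsScalarTower ℂ C C] [SMulCommClass ℂ C C]

/-- reduction to homomorphisms with dense range -/
theorem reduce (θ : B →ₙₐ[ℂ] A) (j : C →ₙₐ[ℂ] A) (hj : IsEmbedding j)
    (hr : Set.range j = closure (Set.range θ))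
    (h : ∀ θ' : B →ₙₐ[ℂ] C, DenseRange θ' → Continuous θ') : Continuous θ := by
  have h1 : ∀ b, ∃ c, j c = θ b := by
    intro b
    have : θ b ∈ Set.range j := by
      rw [hr]
      exact subset_closure ⟨b, rfl⟩
    exact this
  choose f hf using h1
  let θ' : B →ₙₐ[ℂ] C :=
    { toFun := f
      map_smul' := fun t b => hj.injective (by rw [hf, map_smul]; simp [hf])
      map_zero' := hj.injective (by rw [hf, map_zero, map_zero])
      map_add' := fun a b => hj.injective (by rw [hf, map_add, map_add, hf, hf])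
      map_mul' := fun a b => hj.injective (by rw [hf, map_mul, map_mul, hf, hf]) }
  have hd : DenseRange θ' := by
    intro c
    rw [hj.closure_eq_preimage_closure_image]
    have h2 : j '' Set.range θ' = Set.range θ := by
      ext a
      constructor
      · rintro ⟨_, ⟨b, rfl⟩, rfl⟩
        exact ⟨b, (hf b).symm⟩
      · rintro ⟨b, rfl⟩
        exact ⟨θ' b, ⟨b, rfl⟩, hf b⟩
    rw [Set.mem_preimage, h2, ← hr]
    exact ⟨c, rfl⟩
  have h3 := h θ' hd
  have h4 : (θ : B → A) = j ∘ θ' := by
    ext b
    exact (hf b).symm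
  rw [h4]
  exact hj.continuous.comp h3

end

end Pool.Agent.SpectralVisible
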