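import Pool.Agent.Lib_helper82.SV.Main

/-! # Families of invertible matrices over the separating space are null-homotopic -/

set_option autoImplicit false

open Filter Topology Set Metric

namespace Pool.Agent.SpectralVisible

/-- approximation of a compact set by convex combinations of finitely many of its points -/
theorem partition {V : Type} [NormedAddCommGroup V] [NormedSpace ℝ V] {K : Set V} (hK : IsCompact K)
    {ε : ℝ} (hε : 0 < ε) :
    ∃ (t : Finset V) (f : V → V → ℝ), (∀ y ∈ t, y ∈ K) ∧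
      (∀ y ∈ t, ContinuousOn (f y) K) ∧ (∀ y v, 0 ≤ f y v) ∧ (∀ v ∈ K, ∑ y ∈ t, f y v = 1) ∧
      ∀ v ∈ K, ‖∑ y ∈ t, f y v • y - v‖ ≤ ε := by
  obtain ⟨t, htK, htf, hcov⟩ := hK.finite_cover_balls hε
  set T : Finset V := htf.toFinset with hT
  set g : V → V → ℝ := fun y v => max 0 (ε - ‖v - y‖) with hg
  have hgc : ∀ y, Continuous (g y) := fun y => by
    have : Continuous fun v : V => max (0 : ℝ) (ε - ‖v - y‖) := by fun_prop
    exact this
  have hg0 : ∀ y v, 0 ≤ g y v := fun y v => le_max_left _ _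
  have hS : ∀ v ∈ K, 0 < ∑ y ∈ T, g y v := by
    intro v hv
    have h1 := hcov hv
    simp only [Set.mem_iUnion, Metric.mem_ball] at h1
    obtain ⟨y, hy, hd⟩ := h1
    have hyT : y ∈ T := htf.mem_toFinset.mpr hy
    have h2 : 0 < g y v := by
      have : 0 < ε - ‖v - y‖ := by
        rw [dist_eq_norm] at hd
        linarith
      exact lt_of_lt_of_le this (le_max_right _ _)
    exact lt_of_lt_of_le h2 (Finset.single_le_sum (f := fun y => g y v) (fun y _ => hg0 y v) hyT)
  refine ⟨T, fun y v => g y v / ∑ y' ∈ T, g y' v, fun y hy => htK (htf.mem_toFinset.mp hy),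
    fun y _ => ?_, ?_, ?_, ?_⟩
  · refine ContinuousOn.div (hgc y).continuousOn ?_ fun v hv => (hS v hv).ne'
    exact (continuous_finsetSum _ fun y' _ => hgc y').continuousOn
  · exact fun y v => div_nonneg (hg0 y v) (Finset.sum_nonneg fun y' _ => hg0 y' v)
  · intro v hv
    rw [← Finset.sum_div, div_self (hS v hv).ne']
  · intro v hv
    have h1 : ∑ y ∈ T, (g y v / ∑ y' ∈ T, g y' v) = 1 := by
      rw [← Finset.sum_div, div_self (hS v hv).ne']
    have h2 : ∑ y ∈ T, (g y v / ∑ y' ∈ T, g y' v) • y - v =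
        ∑ y ∈ T, (g y v / ∑ y' ∈ T, g y' v) • (y - v) := by
      simp_rw [smul_sub]
      rw [Finset.sum_sub_distrib, ← Finset.sum_smul, h1, one_smul]
    rw [h2]
    calc ‖∑ y ∈ T, (g y v / ∑ y' ∈ T, g y' v) • (y - v)‖
        ≤ ∑ y ∈ T, ‖(g y v / ∑ y' ∈ T, g y' v) • (y - v)‖ := norm_sum_le _ _
      _ ≤ ∑ y ∈ T, (g y v / ∑ y' ∈ T, g y' v) * ε := by
          refine Finset.sum_le_sum fun y _ => ?_
          have hf0 : 0 ≤ g y v / ∑ y' ∈ T, g y' v :=
            div_nonneg (hg0 y v) (Finset.sum_nonneg fun y' _ => hg0 y' v)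
          rw [norm_smul, Real.norm_of_nonneg hf0]
          by_cases hz : ‖v - y‖ < ε
          · have : ‖y - v‖ ≤ ε := by rw [norm_sub_rev]; exact hz.le
            exact mul_le_mul_of_nonneg_left this hf0
          · have : g y v = 0 := max_eq_left (by linarith)
            rw [this]
            simp
      _ = ε := by rw [← Finset.sum_mul, h1, one_mul]

section

variable {B C E : Type} [NonUnitalNormedRing B] [NormedSpace ℂ B] [IsScalarTower ℂ B B]
  [SMulCommClass ℂ B B] [CompleteSpace B]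
  [NonUnitalNormedRing C] [NormedSpace ℂ C] [IsScalarTower ℂ C C] [SMulCommClass ℂ C C]
  [NormedRing E] [NormedAlgebra ℂ E] [CompleteSpace E]

/-- `1 + u` is invertible for the image `u` of a small matrix -/
theorem isUnit_one_add (θ : B →ₙₐ[ℂ] C) (q : C →ₙₐ[ℂ] E) {n : ℕ} (u : Matrix (Fin n) (Fin n) B)
    (hu : ∑ i, ∑ j, ‖u i j‖ < 1) : IsUnit (1 + (u.map θ).map q) := by
  have h1 := smallSpec_matrix θ (mapM q n) u
  have h2 : (-1 : ℂ) ∉ spectrum ℂ ((u.map θ).map q) := by
    intro h
    have := h1 _ h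
    rw [norm_neg, norm_one] at this
    linarith
  rw [spectrum.notMem_iff] at h2
  have h3 : 1 + (u.map θ).map q =
      -(algebraMap ℂ (Matrix (Fin n) (Fin n) E) (-1) - (u.map θ).map q) := by
    rw [map_neg, map_one]
    abel
  rw [h3]
  exact h2.neg

theorem not_seenByHomotopy (θ : B →ₙₐ[ℂ] C) {I : Submodule ℂ C} (hI : ∀ x ∈ I, x ∈ sep θ) :
    ¬ SeenByHomotopy I := by
  rintro ⟨E, _, _, _, q, n, X, _, _, s, hq, hs, hsI, hun, hne⟩
  refine hne ?_
  -- matrices over `E` and over `C` as functions, with the maximum norm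
  let P : (Fin n → Fin n → C) → (Fin n → Fin n → E) := fun v i j => q (v i j)
  let o : Fin n → Fin n → E := fun i j => (1 : Matrix (Fin n) (Fin n) E) i j
  let S : X → (Fin n → Fin n → C) := fun x i j => s x i j
  have hP : Continuous P := by
    refine continuous_pi fun i => continuous_pi fun j => ?_
    exact hq.comp (by fun_prop)
  have hS : Continuous S := hs
  -- the compact set of the values
  have hK : IsCompact (Set.range fun x => o + P (S x)) :=
    isCompact_range (continuous_const.add (hP.comp hS))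
  have hsub : (Set.range fun x => o + P (S x)) ⊆
      {M : Fin n → Fin n → E | IsUnit (Matrix.of M)} := by
    rintro _ ⟨x, rfl⟩
    exact hun x
  obtain ⟨δ, hδ, hth⟩ := hK.exists_thickening_subset_open (isOpen_units n) hsub
  -- `q` is bounded
  obtain ⟨M, hM0, hM⟩ : ∃ M : ℝ, 0 < M ∧ ∀ v w : Fin n → Fin n → C,
      ‖P v - P w‖ ≤ M * ‖v - w‖ := by
    let qL : C →L[ℂ] E := { toLinearMap := (q : C →ₗ[ℂ] E), cont := hq }
    refine ⟨‖qL‖ + 1, by positivity, fun v w => ?_⟩
    refine (pi_norm_le_iff_of_nonneg (by positivity)).mpr fun i =>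
      (pi_norm_le_iff_of_nonneg (by positivity)).mpr fun j => ?_
    have h1 : (P v - P w) i j = qL (v i j - w i j) := by
      show q (v i j) - q (w i j) = q (v i j - w i j)
      rw [map_sub]
    rw [h1]
    calc ‖qL (v i j - w i j)‖ ≤ ‖qL‖ * ‖v i j - w i j‖ := qL.le_opNorm _
      _ ≤ (‖qL‖ + 1) * ‖v - w‖ := by
          gcongr
          · linarith
          · calc ‖v i j - w i j‖ = ‖(v - w) i j‖ := rfl
              _ ≤ ‖(v - w) i‖ := norm_le_pi_norm _ j
              _ ≤ ‖v - w‖ := norm_le_pi_norm _ i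
  -- approximation
  have hε : 0 < δ / (4 * M) := by positivity
  have hKs : IsCompact (Set.range S) := isCompact_range hS
  obtain ⟨t, f, ht, hfc, hf0, hf1, hfa⟩ := partition hKs hε
  have hsep : ∀ y ∈ t, ∀ i j, y i j ∈ sep θ := by
    intro y hy i j
    obtain ⟨x, hx⟩ := ht y hy
    rw [← hx]
    exact hI _ (hsI x i j)
  -- small matrices the images of which are near `y`
  have hch : ∀ y : Fin n → Fin n → C, ∃ u : Fin n → Fin n → B, y ∈ t →
      ∑ i, ∑ j, ‖u i j‖ < 1 / 2 ∧ ‖(fun i j => θ (u i j)) - y‖ ≤ δ / (4 * M) := by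
    intro y
    by_cases hy : y ∈ t
    · obtain ⟨u, hu, hlim⟩ := matrix_limit θ (s := Matrix.of y) (hsep y hy)
      have h1 : ∀ᶠ k in atTop, ∑ i, ∑ j, ‖u k i j‖ < 1 / 2 :=
        hu.eventually (gt_mem_nhds (by norm_num))
      have h2 : Tendsto (fun k => ((fun i j => θ (u k i j)) : Fin n → Fin n → C)) atTop (𝓝 y) :=
        hlim
      have h3 : ∀ᶠ k in atTop, ‖(fun i j => θ (u k i j)) - y‖ < δ / (4 * M) := by
        have := tendsto_iff_norm_sub_tendsto_zero.mp h2
        exact this.eventually (gt_mem_nhds hε)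
      obtain ⟨k, hk1, hk2⟩ := (h1.and h3).exists
      exact ⟨fun i j => u k i j, fun _ => ⟨hk1, hk2.le⟩⟩
    · exact ⟨0, fun h => absurd h hy⟩
  choose u hu using hch
  have hmem : ∀ x, S x ∈ Set.range S := fun x => ⟨x, rfl⟩
  -- the family of small matrices over `B`
  let U : X → (Fin n → Fin n → B) := fun x i j => ∑ y ∈ t, (f y (S x) : ℂ) • u y i j
  let W : X → (Fin n → Fin n → C) := fun x => ∑ y ∈ t, f y (S x) • (fun i j => θ (u y i j))
  have hUW : ∀ x i j, θ (U x i j) = W x i j := by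
    intro x i j
    show θ (∑ y ∈ t, (f y (S x) : ℂ) • u y i j) =
      (∑ y ∈ t, f y (S x) • (fun i j => θ (u y i j)) : Fin n → Fin n → C) i j
    rw [map_sum, Finset.sum_apply, Finset.sum_apply]
    refine Finset.sum_congr rfl fun y _ => ?_
    rw [map_smul]
    rfl
  have hfS : ∀ y ∈ t, Continuous fun x => f y (S x) := fun y hy =>
    (hfc y hy).comp_continuous hS hmem
  have hWc : Continuous W :=
    continuous_finsetSum _ fun y hy => (hfS y hy).smul continuous_const
  have hUn : ∀ x, ∑ i, ∑ j, ‖U x i j‖ ≤ 1 / 2 := by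
    intro x
    have h1 : ∀ i j, ‖U x i j‖ ≤ ∑ y ∈ t, f y (S x) * ‖u y i j‖ := by
      intro i j
      refine (norm_sum_le _ _).trans (Finset.sum_le_sum fun y _ => ?_)
      rw [norm_smul, Complex.norm_real, Real.norm_of_nonneg (hf0 _ _)]
    calc ∑ i, ∑ j, ‖U x i j‖ ≤ ∑ i, ∑ j, ∑ y ∈ t, f y (S x) * ‖u y i j‖ :=
          Finset.sum_le_sum fun i _ => Finset.sum_le_sum fun j _ => h1 i j
      _ = ∑ y ∈ t, f y (S x) * ∑ i, ∑ j, ‖u y i j‖ := by
          have e1 : ∀ i : Fin n, ∑ j, ∑ y ∈ t, f y (S x) * ‖u y i j‖ =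
              ∑ y ∈ t, ∑ j, f y (S x) * ‖u y i j‖ := fun i => Finset.sum_comm
          simp_rw [e1]
          rw [Finset.sum_comm]
          simp_rw [Finset.mul_sum]
      _ ≤ ∑ y ∈ t, f y (S x) * (1 / 2) := by
          refine Finset.sum_le_sum fun y hy => ?_
          exact mul_le_mul_of_nonneg_left (hu y hy).1.le (hf0 _ _)
      _ = 1 / 2 := by rw [← Finset.sum_mul, hf1 _ (hmem x), one_mul]
  have hWs : ∀ x, ‖W x - S x‖ ≤ δ / (2 * M) := by
    intro x
    have h1 : ‖W x - ∑ y ∈ t, f y (S x) • y‖ ≤ δ / (4 * M) := by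
      have e1 : W x - ∑ y ∈ t, f y (S x) • y =
          ∑ y ∈ t, f y (S x) • ((fun i j => θ (u y i j)) - y) := by
        simp_rw [smul_sub]
        rw [Finset.sum_sub_distrib]
      rw [e1]
      calc ‖∑ y ∈ t, f y (S x) • ((fun i j => θ (u y i j)) - y)‖
          ≤ ∑ y ∈ t, ‖f y (S x) • ((fun i j => θ (u y i j)) - y)‖ := norm_sum_le _ _
        _ ≤ ∑ y ∈ t, f y (S x) * (δ / (4 * M)) := by
            refine Finset.sum_le_sum fun y hy => ?_
            rw [norm_smul, Real.norm_of_nonneg (hf0 _ _)]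
            exact mul_le_mul_of_nonneg_left (hu y hy).2 (hf0 _ _)
        _ = δ / (4 * M) := by rw [← Finset.sum_mul, hf1 _ (hmem x), one_mul]
    have h2 := hfa _ (hmem x)
    calc ‖W x - S x‖ ≤ ‖W x - ∑ y ∈ t, f y (S x) • y‖ + ‖∑ y ∈ t, f y (S x) • y - S x‖ :=
          norm_sub_le_norm_sub_add_norm_sub _ _ _
      _ ≤ δ / (4 * M) + δ / (4 * M) := add_le_add h1 h2
      _ = δ / (2 * M) := by field_simp; norm_num
  have hPW : ∀ x, ‖P (W x) - P (S x)‖ < δ := by
    intro x
    have h1 := hM (W x) (S x)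
    have h2 : M * ‖W x - S x‖ ≤ M * (δ / (2 * M)) := by
      gcongr
      exact hWs x
    have h3 : M * (δ / (2 * M)) = δ / 2 := by
      field_simp
    linarith
  -- the homotopy
  let h : X × unitInterval → (Fin n → Fin n → E) := fun p =>
    o + (min (2 * (p.2 : ℝ)) 1) • P (W p.1) +
      (max (2 * (p.2 : ℝ) - 1) 0) • (P (S p.1) - P (W p.1))
  refine ⟨fun p => Matrix.of (h p), ?_, ?_, ?_⟩
  · have : Continuous h := by
      have e1 : Continuous fun p : X × unitInterval => P (W p.1) :=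
        hP.comp (hWc.comp continuous_fst)
      have e2 : Continuous fun p : X × unitInterval => P (S p.1) :=
        hP.comp (hS.comp continuous_fst)
      have c1 : Continuous fun p : X × unitInterval => min (2 * (p.2 : ℝ)) 1 := by fun_prop
      have c2 : Continuous fun p : X × unitInterval => max (2 * (p.2 : ℝ) - 1) 0 := by fun_prop
      exact (continuous_const.add (c1.smul e1)).add (c2.smul (e2.sub e1))
    exact this
  · rintro ⟨x, τ⟩
    obtain ⟨hτ0, hτ1⟩ := τ.2
    rcases le_total (2 * (τ : ℝ)) 1 with hle | hle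
    · -- first half
      have e1 : h (x, τ) = o + (2 * (τ : ℝ)) • P (W x) := by
        show o + (min (2 * (τ : ℝ)) 1) • P (W x) + (max (2 * (τ : ℝ) - 1) 0) • (P (S x) - P (W x)) = _
        rw [min_eq_left hle, max_eq_right (by linarith), zero_smul, add_zero]
      show IsUnit (Matrix.of (h (x, τ)))
      have hc : (0 : ℝ) ≤ 2 * τ := by linarith
      have h2 := isUnit_one_add θ q (Matrix.of fun i j => ((2 * (τ : ℝ) : ℝ) : ℂ) • U x i j) (by
        have h3 : ∑ i, ∑ j, ‖(Matrix.of fun i j => ((2 * (τ : ℝ) : ℝ) : ℂ) • U x i j :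
            Matrix (Fin n) (Fin n) B) i j‖ ≤ 2 * (τ : ℝ) * ∑ i, ∑ j, ‖U x i j‖ := by
          rw [Finset.mul_sum]
          refine Finset.sum_le_sum fun i _ => ?_
          rw [Finset.mul_sum]
          refine Finset.sum_le_sum fun j _ => ?_
          rw [Matrix.of_apply, norm_smul, Complex.norm_real, Real.norm_of_nonneg hc]
        have h4 := hUn x
        have h5 : 0 ≤ ∑ i, ∑ j, ‖U x i j‖ := by positivity
        nlinarith)
      rw [e1]
      convert h2 using 1
      ext i j
      show o i j + (2 * (τ : ℝ)) • q (W x i j) =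
        (1 : Matrix (Fin n) (Fin n) E) i j + q (θ (((2 * (τ : ℝ) : ℝ) : ℂ) • U x i j))
      rw [map_smul, map_smul, hUW]
      rfl
    · -- second half
      have e1 : h (x, τ) = (o + P (S x)) + (2 - 2 * (τ : ℝ)) • (P (W x) - P (S x)) := by
        show o + (min (2 * (τ : ℝ)) 1) • P (W x) + (max (2 * (τ : ℝ) - 1) 0) • (P (S x) - P (W x)) = _
        rw [min_eq_right hle, max_eq_left (by linarith), one_smul]
        module
      have h2 : h (x, τ) ∈ Metric.thickening δ (Set.range fun x => o + P (S x)) := by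
        rw [Metric.mem_thickening_iff]
        refine ⟨o + P (S x), ⟨x, rfl⟩, ?_⟩
        rw [e1, dist_eq_norm, add_sub_cancel_left, norm_smul, Real.norm_of_nonneg (by linarith)]
        have h3 := hPW x
        nlinarith [norm_nonneg (P (W x) - P (S x))]
      exact hth h2
  · intro x
    constructor
    · show Matrix.of (h (x, 0)) = 1
      have e1 : h (x, 0) = o := by
        show o + (min (2 * (((0 : unitInterval) : ℝ))) 1) • P (W x) +
          (max (2 * (((0 : unitInterval) : ℝ)) - 1) 0) • (P (S x) - P (W x)) = _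
        simp
      rw [e1]
      rfl
    · show Matrix.of (h (x, 1)) = 1 + (s x).map q
      have e1 : h (x, 1) = o + P (S x) := by
        show o + (min (2 * (((1 : unitInterval) : ℝ))) 1) • P (W x) +
          (max (2 * (((1 : unitInterval) : ℝ)) - 1) 0) • (P (S x) - P (W x)) = _
        norm_num
      rw [e1]
      rfl

end

end Pool.Agent.SpectralVisible
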