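import Pool.Agent.Lib_helper82.SV.Sep
import Pool.Agent.Lib_helper82.SV.Defs

/-! # Homomorphisms such that the closed ideals of the closure of the range are seen -/

set_option autoImplicit false

open Filter Topology Set Metric

namespace Pool.Agent.SpectralVisible

/-! ### Invertible matrices form an open set -/

section

variable {E : Type} [NormedRing E] [NormedAlgebra ℂ E] [CompleteSpace E]

/-- the invertible matrices form an open set, for the topology of the entries -/
theorem isOpen_units (n : ℕ) : IsOpen {M : Fin n → Fin n → E | IsUnit (Matrix.of M)} := by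
  letI i1 : NormedRing (Matrix (Fin n) (Fin n) E) := Matrix.linftyOpNormedRing
  have i3 : @CompleteSpace (Matrix (Fin n) (Fin n) E)
      (@PseudoMetricSpace.toUniformSpace _ i1.toMetricSpace.toPseudoMetricSpace) :=
    complete_matrix n
  rw [isOpen_iff_mem_nhds]
  intro M hM
  have h1 : ∀ᶠ N : Matrix (Fin n) (Fin n) E in @nhds _
      i1.toMetricSpace.toPseudoMetricSpace.toUniformSpace.toTopologicalSpace (Matrix.of M),
      IsUnit N := by
    have := Units.isOpen (R := Matrix (Fin n) (Fin n) E)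
    exact this.mem_nhds hM
  have h2 : Tendsto (fun N : Fin n → Fin n → E => (Matrix.of N : Matrix (Fin n) (Fin n) E)) (𝓝 M)
      (@nhds _ i1.toMetricSpace.toPseudoMetricSpace.toUniformSpace.toTopologicalSpace
        (Matrix.of M)) := by
    rw [tendsto_iff_norm_sub_tendsto_zero]
    have h5 : Tendsto (fun N : Fin n → Fin n → E => ∑ i, ∑ j, ‖(Matrix.of N - Matrix.of M) i j‖)
        (𝓝 M) (𝓝 0) := by
      have h6 : Tendsto (fun N : Fin n → Fin n → E =>
          ∑ i, ∑ j, ‖(Matrix.of N - Matrix.of M) i j‖) (𝓝 M)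
          (𝓝 (∑ i : Fin n, ∑ j : Fin n, (0 : ℝ))) := by
        refine tendsto_finsetSum _ fun i _ => tendsto_finsetSum _ fun j _ => ?_
        have h7 : Tendsto (fun N : Fin n → Fin n → E => N i j) (𝓝 M) (𝓝 (M i j)) := by
          have : Continuous (fun N : Fin n → Fin n → E => N i j) := by fun_prop
          exact this.tendsto M
        exact tendsto_iff_norm_sub_tendsto_zero.mp h7
      simpa using h6
    exact squeeze_zero (fun M => norm_nonneg _) (fun M => matrix_norm_le _) h5
  exact h2.eventually h1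

/-- `q` applied to the entries, as a homomorphism -/
noncomputable def mapM {C : Type} [NonUnitalNormedRing C] [NormedSpace ℂ C] [IsScalarTower ℂ C C]
    [SMulCommClass ℂ C C] (q : C →ₙₐ[ℂ] E) (n : ℕ) :
    Matrix (Fin n) (Fin n) C →ₙₐ[ℂ] Matrix (Fin n) (Fin n) E where
  toFun := fun u => u.map q
  map_smul' := by
    intro t u
    ext i j
    simp
  map_zero' := by
    ext i j
    simp
  map_add' := by
    intro u v
    ext i j
    simp
  map_mul' := by
    intro u v
    ext i j
    simp [Matrix.mul_apply, map_sum]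

end

section

variable {B C : Type} [NonUnitalNormedRing B] [NormedSpace ℂ B] [IsScalarTower ℂ B B]
  [SMulCommClass ℂ B B] [CompleteSpace B]
  [NonUnitalNormedRing C] [NormedSpace ℂ C] [IsScalarTower ℂ C C] [SMulCommClass ℂ C C]

/-- a matrix over the separating space is a limit of images of small matrices -/
theorem matrix_limit (θ : B →ₙₐ[ℂ] C) {n : ℕ} {s : Matrix (Fin n) (Fin n) C}
    (hs : ∀ i j, s i j ∈ sep θ) :
    ∃ u : ℕ → Matrix (Fin n) (Fin n) B, Tendsto (fun k => ∑ i, ∑ j, ‖u k i j‖) atTop (𝓝 0) ∧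
      Tendsto (fun k => (u k).map θ) atTop (𝓝 s) := by
  have h1 : ∀ i j, ∃ u : ℕ → B, Tendsto u atTop (𝓝 0) ∧
      Tendsto (fun k => θ (u k)) atTop (𝓝 (s i j)) := fun i j => (mem_sep_iff θ _).mp (hs i j)
  choose u hu hs' using h1
  refine ⟨fun k => Matrix.of fun i j => u i j k, ?_, ?_⟩
  · have h5 : Tendsto (fun k => ∑ i, ∑ j, ‖u i j k‖) atTop
        (𝓝 (∑ i : Fin n, ∑ j : Fin n, (0 : ℝ))) := by
      refine tendsto_finsetSum _ fun i _ => tendsto_finsetSum _ fun j _ => ?_
      simpa using (hu i j).norm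
    simpa using h5
  · refine tendsto_pi_nhds.mpr fun i => tendsto_pi_nhds.mpr fun j => ?_
    exact hs' i j

theorem not_seenBySpectrum (θ : B →ₙₐ[ℂ] C) {I : Submodule ℂ C} (hI : ∀ x ∈ I, x ∈ sep θ) :
    ¬ SeenBySpectrum I := by
  rintro ⟨E, _, _, _, _, q, n, s, hq, hs, hne⟩
  obtain ⟨u, hu, hlim⟩ := matrix_limit θ (fun i j => hI _ (hs i j))
  letI i1 : NormedRing (Matrix (Fin (n + 1)) (Fin (n + 1)) E) := Matrix.linftyOpNormedRing
  letI i2 : NormedAlgebra ℂ (Matrix (Fin (n + 1)) (Fin (n + 1)) E) := Matrix.linftyOpNormedAlgebra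
  have i3 : @CompleteSpace (Matrix (Fin (n + 1)) (Fin (n + 1)) E)
      (@PseudoMetricSpace.toUniformSpace _ i1.toMetricSpace.toPseudoMetricSpace) :=
    complete_matrix (n + 1)
  have hw : Tendsto (fun k => ((u k).map θ).map q) atTop
      (@nhds _ i1.toMetricSpace.toPseudoMetricSpace.toUniformSpace.toTopologicalSpace
        (s.map q)) := by
    rw [tendsto_iff_norm_sub_tendsto_zero]
    have h5 : Tendsto (fun k => ∑ i, ∑ j, ‖(((u k).map θ).map q - s.map q) i j‖) atTop (𝓝 0) := by
      have h6 : Tendsto (fun k => ∑ i, ∑ j, ‖(((u k).map θ).map q - s.map q) i j‖) atTop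
          (𝓝 (∑ i : Fin (n + 1), ∑ j : Fin (n + 1), (0 : ℝ))) := by
        refine tendsto_finsetSum _ fun i _ => tendsto_finsetSum _ fun j _ => ?_
        have h7 : Tendsto (fun k => ((u k).map θ) i j) atTop (𝓝 (s i j)) := by
          have := tendsto_pi_nhds.mp hlim i
          exact tendsto_pi_nhds.mp this j
        have h8 : Tendsto (fun k => q (((u k).map θ) i j)) atTop (𝓝 (q (s i j))) :=
          (hq.tendsto _).comp h7
        exact tendsto_iff_norm_sub_tendsto_zero.mp h8
      simpa using h6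
    exact squeeze_zero (fun k => norm_nonneg _) (fun k => matrix_norm_le _) h5
  have hsm : ∀ k, SmallSpec (((u k).map θ).map q) (∑ i, ∑ j, ‖u k i j‖) :=
    fun k => smallSpec_matrix θ (mapM q (n + 1)) (u k)
  exact hne ⟨preconnected hw hu hsm, zero_mem hw hu hsm⟩

theorem not_seenByTrace (θ : B →ₙₐ[ℂ] C) {I : Submodule ℂ C} (hI : ∀ x ∈ I, x ∈ sep θ) :
    ¬ SeenByTrace I := by
  rintro ⟨E, _, q, τ, s, hq, hτ, hs, hne⟩
  -- the trace on the algebra with a unit adjoined
  let j : E →ₙₐ[ℂ] Unitization ℂ E := Unitization.inrNonUnitalAlgHom ℂ E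
  have hj : Continuous j := Unitization.continuous_inr
  let τ' : Unitization ℂ E →L[ℂ] ℂ :=
    { toFun := fun x => τ x.snd
      map_add' := fun x y => by simp
      map_smul' := fun t x => by simp
      cont := τ.continuous.comp Unitization.continuous_snd }
  have hτ' : ∀ x y, τ' (x * y) = τ' (y * x) := by
    intro x y
    show τ (x * y).snd = τ (y * x).snd
    rw [Unitization.snd_mul, Unitization.snd_mul, map_add, map_add, map_add, map_add, hτ]
    ring
  have hne' : τ' (j (q s)) ≠ 0 := hne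
  obtain ⟨u, hu, hlim⟩ := (mem_sep_iff θ s).mp (hI s hs)
  have hw : Tendsto (fun k => j (q (θ (u k)))) atTop (𝓝 (j (q s))) :=
    (hj.tendsto _).comp ((hq.tendsto s).comp hlim)
  have hsm : ∀ k, SmallSpec (j (q (θ (u k)))) ‖u k‖ :=
    fun k => smallSpec_map ((j.comp q).comp θ) (u k)
  have h1 : Tendsto (fun k => ‖τ' (j (q (θ (u k))))‖) atTop (𝓝 ‖τ' (j (q s))‖) :=
    ((τ'.continuous.tendsto _).comp hw).norm
  have h2 : Tendsto (fun k => ‖τ'‖ * (‖u k‖ + 1 / ((k : ℝ) + 1))) atTop (𝓝 0) := by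
    have h3 : Tendsto (fun k : ℕ => 1 / ((k : ℝ) + 1)) atTop (𝓝 0) :=
      tendsto_one_div_add_atTop_nhds_zero_nat
    have h0 : Tendsto (fun k => ‖u k‖) atTop (𝓝 0) := by simpa using hu.norm
    have h4 := (h0.add h3).const_mul ‖τ'‖
    simpa using h4
  have h3 : ∀ k, ‖τ' (j (q (θ (u k))))‖ ≤ ‖τ'‖ * (‖u k‖ + 1 / ((k : ℝ) + 1)) := by
    intro k
    have hp : (0 : ℝ) < 1 / ((k : ℝ) + 1) := by positivity
    refine trace_le τ' hτ' (by positivity) fun z hz => ?_
    have := hsm k z hz
    linarith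
  have h4 : ‖τ' (j (q s))‖ ≤ 0 := le_of_tendsto_of_tendsto' h1 h2 h3
  exact hne' (norm_le_zero_iff.mp h4)

end

end Pool.Agent.SpectralVisible
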