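import Pool.Agent.Lib_helper82.SV.Trace

/-! # The separating space (MP_a94db7_an) -/

set_option autoImplicit false

open Filter Topology Set Metric

namespace Pool.Agent.SpectralVisible

section

variable {B D : Type} [NonUnitalNormedRing B] [NormedSpace ℂ B] [IsScalarTower ℂ B B]
  [SMulCommClass ℂ B B] [CompleteSpace B]
  [Ring D] [Algebra ℂ D]

/-- a homomorphism from a Banach algebra does not increase the spectral radius beyond the norm -/
theorem smallSpec_map (φ : B →ₙₐ[ℂ] D) (b : B) : SmallSpec (φ b) ‖b‖ := by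
  intro z hz
  have h1 : z ∈ spectrum ℂ (Unitization.lift φ (b : Unitization ℂ B)) := by
    simpa using hz
  have h2 : z ∈ spectrum ℂ (b : Unitization ℂ B) :=
    AlgHom.spectrum_apply_subset (Unitization.lift φ) _ h1
  have h3 : z ∈ spectrum ℂ (WithLp.toLp 1 (b : Unitization ℂ B)) := by
    rw [← AlgEquiv.spectrum_eq (WithLp.unitizationAlgEquiv (𝕜 := ℂ) (A := B) ℂ)]
    exact h2
  have h4 := spectrum.subset_closedBall_norm_mul _ h3
  rw [WithLp.unitization_norm_inr] at h4
  have h5 : ‖(1 : WithLp 1 (Unitization ℂ B))‖ = 1 := by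
    rw [WithLp.unitization_norm_def]
    have : (WithLp.ofLp (1 : WithLp 1 (Unitization ℂ B))) = (1 : Unitization ℂ B) := rfl
    rw [this]
    simp
  rw [h5, mul_one] at h4
  simpa using h4

end

section

variable {B C : Type} [NonUnitalNormedRing B] [NormedSpace ℂ B] [IsScalarTower ℂ B B]
  [SMulCommClass ℂ B B]
  [NonUnitalNormedRing C] [NormedSpace ℂ C] [IsScalarTower ℂ C C] [SMulCommClass ℂ C C]

/-- the separating space of a homomorphism -/
def sep (θ : B →ₙₐ[ℂ] C) : Set C := {c | ((0 : B), c) ∈ closure {p : B × C | p.2 = θ p.1}}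

theorem mem_sep_iff (θ : B →ₙₐ[ℂ] C) (c : C) :
    c ∈ sep θ ↔ ∃ u : ℕ → B, Tendsto u atTop (𝓝 0) ∧ Tendsto (fun k => θ (u k)) atTop (𝓝 c) := by
  constructor
  · intro h
    obtain ⟨p, hp, hlim⟩ := mem_closure_iff_seq_limit.mp h
    refine ⟨fun k => (p k).1, ?_, ?_⟩
    · exact (continuous_fst.tendsto _).comp hlim
    · have : Tendsto (fun k => (p k).2) atTop (𝓝 c) := (continuous_snd.tendsto _).comp hlim
      refine this.congr fun k => ?_
      exact hp k
  · rintro ⟨u, hu, hc⟩
    refine mem_closure_iff_seq_limit.mpr ⟨fun k => (u k, θ (u k)), fun k => rfl, ?_⟩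
    exact hu.prodMk_nhds hc

theorem isClosed_sep (θ : B →ₙₐ[ℂ] C) : IsClosed (sep θ) := by
  have : Continuous (fun c : C => ((0 : B), c)) := by fun_prop
  exact isClosed_closure.preimage this

/-- the separating space as a subspace -/
def sepSub (θ : B →ₙₐ[ℂ] C) : Submodule ℂ C where
  carrier := sep θ
  zero_mem' := (mem_sep_iff θ 0).mpr ⟨fun _ => 0, tendsto_const_nhds, by simp⟩
  add_mem' := by
    intro a b ha hb
    obtain ⟨u, hu, hua⟩ := (mem_sep_iff θ a).mp ha
    obtain ⟨v, hv, hvb⟩ := (mem_sep_iff θ b).mp hb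
    refine (mem_sep_iff θ _).mpr ⟨fun k => u k + v k, by simpa using hu.add hv, ?_⟩
    simpa using hua.add hvb
  smul_mem' := by
    intro t a ha
    obtain ⟨u, hu, hua⟩ := (mem_sep_iff θ a).mp ha
    refine (mem_sep_iff θ _).mpr ⟨fun k => t • u k, by simpa using hu.const_smul t, ?_⟩
    simpa using hua.const_smul t

theorem sep_mul (θ : B →ₙₐ[ℂ] C) (hd : DenseRange θ) {x : C} (hx : x ∈ sep θ) (y : C) :
    x * y ∈ sep θ ∧ y * x ∈ sep θ := by
  obtain ⟨u, hu, hux⟩ := (mem_sep_iff θ x).mp hx
  constructor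
  · have hcl : IsClosed {y : C | x * y ∈ sep θ} :=
      (isClosed_sep θ).preimage (continuous_const.mul continuous_id)
    have hr : Set.range θ ⊆ {y : C | x * y ∈ sep θ} := by
      rintro _ ⟨b, rfl⟩
      refine (mem_sep_iff θ _).mpr ⟨fun k => u k * b, ?_, ?_⟩
      · simpa using hu.mul (tendsto_const_nhds (x := b))
      · simpa using hux.mul (tendsto_const_nhds (x := θ b))
    have := hcl.closure_subset_iff.mpr hr
    exact this (hd y)
  · have hcl : IsClosed {y : C | y * x ∈ sep θ} :=
      (isClosed_sep θ).preimage (continuous_id.mul continuous_const)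
    have hr : Set.range θ ⊆ {y : C | y * x ∈ sep θ} := by
      rintro _ ⟨b, rfl⟩
      refine (mem_sep_iff θ _).mpr ⟨fun k => b * u k, ?_, ?_⟩
      · simpa using (tendsto_const_nhds (x := b)).mul hu
      · simpa using (tendsto_const_nhds (x := θ b)).mul hux
    have := hcl.closure_subset_iff.mpr hr
    exact this (hd y)

theorem continuous_of_sep [CompleteSpace B] [CompleteSpace C] (θ : B →ₙₐ[ℂ] C)
    (h : ∀ c ∈ sep θ, c = 0) : Continuous θ := by
  have h1 : Continuous ((θ : B →ₗ[ℂ] C)) := by
    refine LinearMap.continuous_of_seq_closed_graph (g := (θ : B →ₗ[ℂ] C)) ?_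
    intro u x y hu hy
    have h2 : y - θ x ∈ sep θ := by
      refine (mem_sep_iff θ _).mpr ⟨fun k => u k - x, ?_, ?_⟩
      · simpa using hu.sub (tendsto_const_nhds (x := x))
      · have h3 : Tendsto (fun k => θ (u k) - θ x) atTop (𝓝 (y - θ x)) :=
          Tendsto.sub hy tendsto_const_nhds
        refine h3.congr fun k => ?_
        rw [map_sub]
    have h3 := h _ h2
    rw [sub_eq_zero] at h3
    exact h3
  exact h1

end

/-! ### Matrices -/

/-- the norm of a matrix is bounded by the entries -/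
theorem matrix_norm_le {E : Type} [NonUnitalNormedRing E] {n : ℕ} (u : Matrix (Fin n) (Fin n) E) :
    (Matrix.linftyOpNonUnitalNormedRing (n := Fin n) (α := E)).norm u ≤ ∑ i, ∑ j, ‖u i j‖ := by
  letI i1 : NonUnitalNormedRing (Matrix (Fin n) (Fin n) E) := Matrix.linftyOpNonUnitalNormedRing
  show ‖u‖ ≤ _
  rw [Matrix.linfty_opNorm_def]
  have h3 : (Finset.univ : Finset (Fin n)).sup (fun i => ∑ j, ‖u i j‖₊) ≤
      ∑ i, ∑ j, ‖u i j‖₊ := by
    refine Finset.sup_le fun i _ => ?_
    exact Finset.single_le_sum (f := fun i => ∑ j, ‖u i j‖₊) (fun _ _ => by positivity)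
      (Finset.mem_univ i)
  have h4 := NNReal.coe_le_coe.mpr h3
  push_cast at h4
  exact_mod_cast h4

theorem complete_matrix {E : Type} [NonUnitalNormedRing E] [CompleteSpace E] (n : ℕ) :
    @CompleteSpace (Matrix (Fin n) (Fin n) E) (@PseudoMetricSpace.toUniformSpace _
      (Matrix.linftyOpNonUnitalNormedRing (n := Fin n) (α := E)).toMetricSpace.toPseudoMetricSpace) := by
  letI i1 : NonUnitalNormedRing (Matrix (Fin n) (Fin n) E) := Matrix.linftyOpNonUnitalNormedRing
  have h2' : ∀ (u : Matrix (Fin n) (Fin n) E) (i j : Fin n), ‖u i j‖ ≤ ‖u‖ := by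
    intro u i j
    rw [Matrix.linfty_opNorm_def]
    have h3 : ‖u i j‖₊ ≤ (Finset.univ : Finset (Fin n)).sup (fun i => ∑ j, ‖u i j‖₊) := by
      refine le_trans ?_ (Finset.le_sup (f := fun i => ∑ j, ‖u i j‖₊) (Finset.mem_univ i))
      exact Finset.single_le_sum (f := fun j => ‖u i j‖₊) (fun _ _ => by positivity)
        (Finset.mem_univ j)
    exact_mod_cast h3
  refine Metric.complete_of_cauchySeq_tendsto fun v hv => ?_
  have h3 : ∀ i j, ∃ a : E, Tendsto (fun k => v k i j) atTop (𝓝 a) := by
    intro i j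
    refine cauchySeq_tendsto_of_complete ?_
    rw [Metric.cauchySeq_iff'] at hv ⊢
    intro ε hε
    obtain ⟨N, hN⟩ := hv ε hε
    refine ⟨N, fun k hk => ?_⟩
    have h4 := hN k hk
    rw [dist_eq_norm] at h4 ⊢
    exact lt_of_le_of_lt (h2' (v k - v N) i j) h4
  choose a ha using h3
  refine ⟨Matrix.of a, ?_⟩
  rw [tendsto_iff_norm_sub_tendsto_zero]
  have h4 : Tendsto (fun k => ∑ i, ∑ j, ‖(v k - Matrix.of a) i j‖) atTop (𝓝 0) := by
    have h5 : Tendsto (fun k => ∑ i, ∑ j, ‖(v k - Matrix.of a) i j‖) atTop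
        (𝓝 (∑ i : Fin n, ∑ j : Fin n, (0 : ℝ))) := by
      refine tendsto_finsetSum _ fun i _ => tendsto_finsetSum _ fun j _ => ?_
      exact tendsto_iff_norm_sub_tendsto_zero.mp (ha i j)
    simpa using h5
  exact squeeze_zero (fun k => norm_nonneg _) (fun k => matrix_norm_le _) h4

section

variable {B C D : Type} [NonUnitalNormedRing B] [NormedSpace ℂ B] [IsScalarTower ℂ B B]
  [SMulCommClass ℂ B B] [CompleteSpace B]
  [NonUnitalNormedRing C] [NormedSpace ℂ C] [IsScalarTower ℂ C C] [SMulCommClass ℂ C C]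
  [Ring D] [Algebra ℂ D]

/-- matrices of small elements are mapped to elements with small spectrum -/
theorem smallSpec_matrix (θ : B →ₙₐ[ℂ] C) {n : ℕ} (q : Matrix (Fin n) (Fin n) C →ₙₐ[ℂ] D)
    (u : Matrix (Fin n) (Fin n) B) :
    SmallSpec (q (u.map θ)) (∑ i, ∑ j, ‖u i j‖) := by
  letI i1 : NonUnitalNormedRing (Matrix (Fin n) (Fin n) B) := Matrix.linftyOpNonUnitalNormedRing
  letI i2 : NormedSpace ℂ (Matrix (Fin n) (Fin n) B) := Matrix.linftyOpNormedSpace
  let φ : Matrix (Fin n) (Fin n) B →ₙₐ[ℂ] D :=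
    { toFun := fun u => q (u.map θ)
      map_smul' := by
        intro t u
        have : (t • u).map θ = t • u.map θ := by
          ext i j
          simp
        rw [this, map_smul]
        rfl
      map_zero' := by
        have : (0 : Matrix (Fin n) (Fin n) B).map θ = 0 := by
          ext i j
          simp
        rw [this, map_zero]
      map_add' := by
        intro u v
        have : (u + v).map θ = u.map θ + v.map θ := by
          ext i j
          simp
        rw [this, map_add]
      map_mul' := by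
        intro u v
        have : (u * v).map θ = u.map θ * v.map θ := by
          ext i j
          simp [Matrix.mul_apply, map_sum]
        rw [this, map_mul] }
  have i3 : @CompleteSpace (Matrix (Fin n) (Fin n) B)
      (@PseudoMetricSpace.toUniformSpace _ i1.toMetricSpace.toPseudoMetricSpace) :=
    complete_matrix n
  have h1 := smallSpec_map φ u
  intro z hz
  exact (h1 z hz).trans (matrix_norm_le u)

end

end Pool.Agent.SpectralVisible
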