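import Mathlib

/-! # Limits of elements with small spectrum (MP_a94db7_an) -/

set_option autoImplicit false

open Filter Topology Set Metric

namespace Pool.Agent.SpectralVisible

/-- the spectrum of `y` is contained in the disc of radius `ε` -/
def SmallSpec {D : Type} [Ring D] [Algebra ℂ D] (y : D) (ε : ℝ) : Prop :=
  ∀ z ∈ spectrum ℂ y, ‖z‖ ≤ ε

section

variable {D : Type} [NormedRing D] [NormedAlgebra ℂ D] [CompleteSpace D]

/-- a limit of non-invertible elements is not invertible: zero is in the spectrum of the limit -/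
theorem zero_mem [Nontrivial D] {y : D} {w : ℕ → D} {ε : ℕ → ℝ} (hw : Tendsto w atTop (𝓝 y))
    (hε : Tendsto ε atTop (𝓝 0)) (hs : ∀ k, SmallSpec (w k) (ε k)) : (0 : ℂ) ∈ spectrum ℂ y := by
  have h1 : ∀ k, ∃ z : ℂ, z ∈ spectrum ℂ (w k) := fun k => spectrum.nonempty (w k)
  choose z hz using h1
  have hz0 : Tendsto z atTop (𝓝 0) := by
    rw [tendsto_zero_iff_norm_tendsto_zero]
    exact squeeze_zero (fun k => norm_nonneg _) (fun k => hs k _ (hz k)) hε
  have h2 : Tendsto (fun k => algebraMap ℂ D (z k) - w k) atTop (𝓝 (algebraMap ℂ D 0 - y)) :=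
    ((continuous_algebraMap ℂ D).tendsto 0 |>.comp hz0).sub hw
  have h3 : algebraMap ℂ D 0 - y ∈ nonunits D :=
    nonunits.isClosed.mem_of_tendsto h2 (Eventually.of_forall fun k => hz k)
  exact h3

/-- if the inverses of a convergent sequence of invertible elements are bounded, then the limit is
invertible -/
theorem isUnit_of_bounded {x : D} {w : ℕ → D} {M : ℝ} (hw : Tendsto w atTop (𝓝 x))
    (h : ∀ᶠ k in atTop, IsUnit (w k) ∧ ‖Ring.inverse (w k)‖ ≤ M) : IsUnit x := by
  nontriviality D
  have hM : 0 < M := by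
    obtain ⟨k, hk, hk'⟩ := h.exists
    have h1 : Ring.inverse (w k) ≠ 0 := by
      intro h0
      have := Ring.inverse_mul_cancel (w k) hk
      rw [h0, zero_mul] at this
      exact zero_ne_one this
    exact lt_of_lt_of_le (norm_pos_iff.mpr h1) hk'
  have h1 : ∀ᶠ k in atTop, ‖x - w k‖ < M⁻¹ := by
    have : Tendsto (fun k => ‖x - w k‖) atTop (𝓝 ‖x - x‖) := (tendsto_const_nhds.sub hw).norm
    rw [sub_self, norm_zero] at this
    exact this.eventually (gt_mem_nhds (inv_pos.mpr hM))
  obtain ⟨k, ⟨hk, hkM⟩, hk2⟩ := (h.and h1).exists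
  have h3 : ‖x - (hk.unit : D)‖ < ‖(↑hk.unit⁻¹ : D)‖⁻¹ := by
    have e1 : (hk.unit : D) = w k := hk.unit_spec
    have e2 : (↑hk.unit⁻¹ : D) = Ring.inverse (w k) := by
      rw [← Ring.inverse_unit hk.unit, e1]
    rw [e1, e2]
    have hpos : 0 < ‖Ring.inverse (w k)‖ := by
      rw [norm_pos_iff]
      intro h0
      have := Ring.inverse_mul_cancel (w k) hk
      rw [h0, zero_mul] at this
      exact zero_ne_one this
    exact lt_of_lt_of_le hk2 (inv_anti₀ hpos hkM)
  have := (Units.ofNearby hk.unit x h3).isUnit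
  simpa using this

/-- near `y` the resolvents are bounded on a compact subset of the resolvent set of `y` -/
theorem resolvent_bound {y : D} {K : Set ℂ} (hK : IsCompact K) (hd : ∀ z ∈ K, z ∉ spectrum ℂ y) :
    ∃ M : ℝ, ∀ᶠ x in 𝓝 y, ∀ z ∈ K, ‖resolvent x z‖ ≤ M := by
  have hc : ∀ z ∈ K, ContinuousAt (fun p : D × ℂ => resolvent p.1 p.2) (y, z) := by
    intro z hz
    have hu : IsUnit (algebraMap ℂ D z - y) := by
      have := hd z hz
      rwa [spectrum.notMem_iff] at this
    have h1 : ContinuousAt Ring.inverse (algebraMap ℂ D z - y) := by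
      have := NormedRing.inverse_continuousAt hu.unit
      rwa [hu.unit_spec] at this
    have h2 : ContinuousAt (fun p : D × ℂ => algebraMap ℂ D p.2 - p.1) (y, z) := by
      have : Continuous (fun p : D × ℂ => algebraMap ℂ D p.2 - p.1) :=
        ((continuous_algebraMap ℂ D).comp continuous_snd).sub continuous_fst
      exact this.continuousAt
    exact ContinuousAt.comp (f := fun p : D × ℂ => algebraMap ℂ D p.2 - p.1) (x := (y, z))
      (g := Ring.inverse) h1 h2
  have hc' : ContinuousOn (fun z => resolvent y z) K := by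
    intro z hz
    have h1 : ContinuousAt (fun z : ℂ => ((y, z) : D × ℂ)) z := by fun_prop
    exact (ContinuousAt.comp (f := fun z : ℂ => ((y, z) : D × ℂ)) (x := z)
      (g := fun p : D × ℂ => resolvent p.1 p.2) (hc z hz) h1).continuousWithinAt
  obtain ⟨M, hM⟩ := hK.exists_bound_of_continuousOn hc'
  refine ⟨M + 1, ?_⟩
  refine (hK.eventually_forall_of_forall_eventually (x₀ := y)
    (P := fun x z => ‖resolvent x z‖ ≤ M + 1) ?_)
  intro z hz
  have h1 : ∀ᶠ p in 𝓝 (y, z), ‖resolvent (R := ℂ) p.1 p.2‖ < M + 1 :=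
    (hc z hz).norm.eventually (gt_mem_nhds (lt_of_le_of_lt (hM z hz) (by linarith)))
  exact h1.mono fun p hp => le_of_lt hp

/-- the spectrum of a limit of elements the spectra of which shrink to the origin is connected -/
theorem preconnected {y : D} {w : ℕ → D} {ε : ℕ → ℝ} (hw : Tendsto w atTop (𝓝 y))
    (hε : Tendsto ε atTop (𝓝 0)) (hs : ∀ k, SmallSpec (w k) (ε k)) :
    IsPreconnected (spectrum ℂ y) := by
  -- the part of the spectrum off the origin
  have key : ∀ K₁ K₂ : Set ℂ, IsCompact K₁ → IsCompact K₂ → Disjoint K₁ K₂ →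
      spectrum ℂ y ⊆ K₁ ∪ K₂ → (0 : ℂ) ∉ K₂ → ∀ z₀ ∈ K₂, z₀ ∉ spectrum ℂ y := by
    intro K₁ K₂ h1 h2 h12 hsub h0 z₀ hz₀ hspec
    -- a neighbourhood of `K₂`
    have h1' : IsCompact (K₁ ∪ {0}) := h1.union isCompact_singleton
    have hdis : Disjoint K₂ (K₁ ∪ {0}) := by
      rw [Set.disjoint_union_right]
      exact ⟨h12.symm, Set.disjoint_singleton_right.mpr h0⟩
    obtain ⟨δ, hδ, hth⟩ := hdis.exists_cthickenings h2 h1'.isClosed
    set U : Set ℂ := Metric.thickening δ K₂ with hU
    have hUb : Bornology.IsBounded U := (h2.isBounded).thickening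
    have hcl : closure U ⊆ Metric.cthickening δ K₂ := Metric.closure_thickening_subset_cthickening _ _
    have hclK : IsCompact (closure U) := hUb.isCompact_closure
    have hfr : ∀ z ∈ frontier U, z ∉ spectrum ℂ y := by
      intro z hz hzs
      have hz1 : z ∈ Metric.cthickening δ K₂ := hcl (frontier_subset_closure hz)
      rcases hsub hzs with h | h
      · exact (Set.disjoint_left.mp hth hz1)
          (Metric.self_subset_cthickening _ (Or.inl h))
      · have : z ∈ interior U := by
          rw [Metric.isOpen_thickening.interior_eq]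
          exact Metric.self_subset_thickening hδ _ h
        exact hz.2 this
    have hfK : IsCompact (frontier U) := hclK.of_isClosed_subset isClosed_frontier
      frontier_subset_closure
    obtain ⟨M, hM⟩ := resolvent_bound hfK hfr
    -- the closure of `U` is away from the origin
    have h0U : ∀ z ∈ closure U, z ≠ 0 := by
      rintro z hz rfl
      exact (Set.disjoint_left.mp hth (hcl hz)) (Metric.self_subset_cthickening _ (Or.inr rfl))
    have hne : (closure U).Nonempty := ⟨z₀, subset_closure (Metric.self_subset_thickening hδ _ hz₀)⟩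
    obtain ⟨zm, hzm, hmin⟩ := hclK.exists_isMinOn hne (continuous_norm.continuousOn)
    have hρ : 0 < ‖zm‖ := norm_pos_iff.mpr (h0U zm hzm)
    have hev : ∀ᶠ k in atTop, ∀ z ∈ closure U, z ∉ spectrum ℂ (w k) := by
      filter_upwards [hε.eventually (gt_mem_nhds hρ)] with k hk z hz hzs
      have a1 := hs k z hzs
      have a2 : ‖zm‖ ≤ ‖z‖ := hmin hz
      linarith
    have hev2 : ∀ᶠ k in atTop, ∀ z ∈ frontier U, ‖resolvent (w k) z‖ ≤ M := hw.eventually hM
    have hconv : Tendsto (fun k => algebraMap ℂ D z₀ - w k) atTop (𝓝 (algebraMap ℂ D z₀ - y)) :=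
      tendsto_const_nhds.sub hw
    have hz₀U : z₀ ∈ closure U := subset_closure (Metric.self_subset_thickening hδ _ hz₀)
    have hun : IsUnit (algebraMap ℂ D z₀ - y) := by
      refine isUnit_of_bounded (M := M) hconv ?_
      filter_upwards [hev, hev2] with k hk hk2
      refine ⟨by have := hk z₀ hz₀U; rwa [spectrum.notMem_iff] at this, ?_⟩
      have hd : DiffContOnCl ℂ (fun z => resolvent (w k) z) U := by
        have hdz : ∀ z ∈ closure U, DifferentiableAt ℂ (fun z => resolvent (w k) z) z := by
          intro z hz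
          have : z ∈ resolventSet ℂ (w k) := by
            have := hk z hz
            rwa [spectrum, Set.notMem_compl_iff] at this
          exact (spectrum.hasDerivAt_resolvent_const_left this).differentiableAt
        exact ⟨fun z hz => (hdz z (subset_closure hz)).differentiableWithinAt,
          fun z hz => (hdz z hz).continuousAt.continuousWithinAt⟩
      exact Complex.norm_le_of_forall_mem_frontier_norm_le hUb hd hk2 hz₀U
    rw [spectrum.mem_iff] at hspec
    exact hspec hun
  -- conclusion
  rw [isPreconnected_closed_iff]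
  intro t t' ht ht' hsub h1 h2
  by_contra hne
  rw [Set.not_nonempty_iff_eq_empty] at hne
  have hcomp : IsCompact (spectrum ℂ y) := spectrum.isCompact y
  have k1 : IsCompact (spectrum ℂ y ∩ t) := hcomp.inter_right ht
  have k2 : IsCompact (spectrum ℂ y ∩ t') := hcomp.inter_right ht'
  have hdis : Disjoint (spectrum ℂ y ∩ t) (spectrum ℂ y ∩ t') := by
    rw [Set.disjoint_left]
    rintro z ⟨a1, a2⟩ ⟨_, a4⟩
    have : z ∈ spectrum ℂ y ∩ (t ∩ t') := ⟨a1, a2, a4⟩
    rw [hne] at this
    exact this
  have hcov : spectrum ℂ y ⊆ (spectrum ℂ y ∩ t) ∪ (spectrum ℂ y ∩ t') := by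
    intro z hz
    rcases hsub hz with h | h
    · exact Or.inl ⟨hz, h⟩
    · exact Or.inr ⟨hz, h⟩
  by_cases h0 : (0 : ℂ) ∈ spectrum ℂ y ∩ t'
  · have h0' : (0 : ℂ) ∉ spectrum ℂ y ∩ t := fun h => Set.disjoint_left.mp hdis h h0
    obtain ⟨z, hz⟩ := h1
    exact key _ _ k2 k1 hdis.symm (by rw [Set.union_comm]; exact hcov) h0' z hz hz.1
  · obtain ⟨z, hz⟩ := h2
    exact key _ _ k1 k2 hdis hcov h0 z hz hz.1

end

end Pool.Agent.SpectralVisible
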