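import Pool.Agent.Lib_helper82.SV.Spec

/-! # Bounded traces on C*-algebras are dominated by the spectral radius (MP_a94db7_an) -/

set_option autoImplicit false

open Filter Topology Set Metric

namespace Pool.Agent.SpectralVisible

section

variable {D : Type} [NormedRing D] [NormedAlgebra ℂ D] [CompleteSpace D]

/-- the powers of an element with spectrum in an open disc -/
theorem power_bound {y : D} {ρ : ℝ} (hρ : 0 < ρ) (h : ∀ z ∈ spectrum ℂ y, ‖z‖ < ρ) :
    ∀ᶠ m : ℕ in atTop, ‖y ^ m‖ ≤ ρ ^ m := by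
  have h1 : spectralRadius ℂ y < ENNReal.ofReal ρ := by
    rcases (spectrum ℂ y).eq_empty_or_nonempty with he | hne
    · have : spectralRadius ℂ y = 0 := by
        simp [spectralRadius, he]
      rw [this]
      exact ENNReal.ofReal_pos.mpr hρ
    · have := spectrum.spectralRadius_lt_of_forall_lt_of_nonempty (𝕜 := ℂ) hne
        (r := ρ.toNNReal) (fun z hz => by
          rw [← NNReal.coe_lt_coe, Real.coe_toNNReal _ hρ.le]
          exact h z hz)
      exact this
  have h2 := (spectrum.pow_norm_pow_one_div_tendsto_nhds_spectralRadius y).eventually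
    (gt_mem_nhds h1)
  filter_upwards [h2, eventually_gt_atTop 0] with m hm hm0
  have h3 : ‖y ^ m‖ ^ (1 / m : ℝ) < ρ := (ENNReal.ofReal_lt_ofReal_iff hρ).mp hm
  have h4 : (‖y ^ m‖ ^ (1 / m : ℝ)) ^ m ≤ ρ ^ m :=
    pow_le_pow_left₀ (by positivity) h3.le m
  rwa [← Real.rpow_natCast, ← Real.rpow_mul (norm_nonneg _), one_div,
    inv_mul_cancel₀ (by exact_mod_cast hm0.ne'), Real.rpow_one] at h4

end

section

variable {D : Type} [CStarAlgebra D]

/-- Rota's theorem for C*-algebras: an element with spectrum in the open unit disc is similar to a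
contraction. -/
theorem similar_contraction {u : D} (h : ∀ z ∈ spectrum ℂ u, ‖z‖ < 1) :
    ∃ h : D, IsUnit h ∧ ‖h * u * Ring.inverse h‖ ≤ 1 := by
  letI : PartialOrder D := CStarAlgebra.spectralOrder D
  letI : StarOrderedRing D := CStarAlgebra.spectralOrderedRing D
  -- a bound smaller than one for the spectrum
  obtain ⟨κ, hκ0, hκ1, hκ⟩ : ∃ κ : ℝ, 0 < κ ∧ κ < 1 ∧ ∀ z ∈ spectrum ℂ u, ‖z‖ < κ := by
    rcases (spectrum ℂ u).eq_empty_or_nonempty with he | hne
    · exact ⟨1 / 2, by norm_num, by norm_num, by simp [he]⟩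
    · obtain ⟨zm, hzm, hmax⟩ := (spectrum.isCompact u).exists_isMaxOn hne
        continuous_norm.continuousOn
      have hm := h zm hzm
      refine ⟨(‖zm‖ + 1) / 2, by positivity, by linarith, fun z hz => ?_⟩
      have : ‖z‖ ≤ ‖zm‖ := hmax hz
      linarith
  have hpow := power_bound hκ0 hκ
  have hsum : Summable (fun m : ℕ => star (u ^ m) * u ^ m) := by
    have hg : Summable (fun m : ℕ => (κ ^ 2) ^ m) :=
      summable_geometric_of_lt_one (by positivity) (by nlinarith)
    refine Summable.of_norm_bounded_eventually_nat hg ?_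
    filter_upwards [hpow] with m hm
    calc ‖star (u ^ m) * u ^ m‖ = ‖u ^ m‖ * ‖u ^ m‖ := CStarRing.norm_star_mul_self
      _ ≤ κ ^ m * κ ^ m := by gcongr
      _ = (κ ^ 2) ^ m := by ring
  set b : D := ∑' m : ℕ, star (u ^ m) * u ^ m with hb
  have hb0 : 0 ≤ b := tsum_nonneg fun m => star_mul_self_nonneg _
  have hb1 : b = 1 + star u * b * u := by
    have e1 : star u * b * u = ∑' m : ℕ, star (u ^ (m + 1)) * u ^ (m + 1) := by
      rw [hb, ← hsum.tsum_mul_left, ← Summable.tsum_mul_right]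
      · congr 1
        ext m
        rw [pow_succ, star_mul]
        noncomm_ring
      · exact hsum.mul_left _
    rw [e1, hb, hsum.tsum_eq_zero_add]
    simp only [pow_zero, star_one, mul_one]
  have hb2 : 1 ≤ b := by
    have : 0 ≤ star u * b * u := star_left_conjugate_nonneg hb0 u
    rw [hb1]
    simpa using this
  have hbu : IsUnit b := CStarAlgebra.isUnit_of_le 1 hb2 (by
    rw [IsStrictlyPositive.iff_of_unital]
    exact ⟨zero_le_one, isUnit_one⟩)
  set s : D := CFC.sqrt b with hs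
  have hss : s * s = b := CFC.sqrt_mul_sqrt_self b hb0
  have hs0 : 0 ≤ s := CFC.sqrt_nonneg b
  have hsa : star s = s := (IsSelfAdjoint.of_nonneg hs0).star_eq
  have hsu : IsUnit s := (CFC.isUnit_sqrt_iff b hb0).mpr hbu
  refine ⟨s, hsu, ?_⟩
  set t : D := Ring.inverse s with ht
  have hst : s * t = 1 := Ring.mul_inverse_cancel s hsu
  have hts : t * s = 1 := Ring.inverse_mul_cancel s hsu
  have hta : star t = t := by
    have h1 : s * star t = 1 := by
      have := congrArg star hts
      rwa [star_mul, star_one, hsa] at this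
    calc star t = t * s * star t := by rw [hts, one_mul]
      _ = t := by rw [mul_assoc, h1, mul_one]
  have hkey : star (s * u * t) * (s * u * t) = 1 - t * t := by
    have e1 : star u * b * u = b - 1 := by rw [eq_sub_iff_add_eq, add_comm]; exact hb1.symm
    calc star (s * u * t) * (s * u * t) = t * (star u * (s * s) * u) * t := by
          rw [star_mul, star_mul, hsa, hta]; noncomm_ring
      _ = t * (b - 1) * t := by rw [hss, e1]
      _ = (t * s) * (s * t) - t * t := by rw [← hss]; noncomm_ring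
      _ = 1 - t * t := by rw [hts, hst, one_mul]
  have hle : star (s * u * t) * (s * u * t) ≤ 1 := by
    rw [hkey]
    have : 0 ≤ t * t := by
      have := star_mul_self_nonneg t
      rwa [hta] at this
    simpa using this
  have hn : ‖star (s * u * t) * (s * u * t)‖ ≤ 1 :=
    (CStarAlgebra.norm_le_one_iff_of_nonneg _ (star_mul_self_nonneg _)).mpr hle
  rw [CStarRing.norm_star_mul_self] at hn
  nlinarith [norm_nonneg (s * u * t)]

/-- a bounded trace on a C*-algebra is dominated by the spectral radius -/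
theorem trace_le {y : D} {ε : ℝ} (τ : D →L[ℂ] ℂ) (hτ : ∀ x y, τ (x * y) = τ (y * x))
    (hε : 0 < ε) (h : ∀ z ∈ spectrum ℂ y, ‖z‖ < ε) : ‖τ y‖ ≤ ‖τ‖ * ε := by
  have hεc : (ε : ℂ) ≠ 0 := by exact_mod_cast hε.ne'
  have h1 : ∀ z ∈ spectrum ℂ ((ε : ℂ)⁻¹ • y), ‖z‖ < 1 := by
    intro z hz
    have hu : IsUnit ((ε : ℂ)⁻¹) := (isUnit_iff_ne_zero.mpr (inv_ne_zero hεc))
    have : (ε : ℂ) * z ∈ spectrum ℂ y := by
      have h2 := (spectrum.smul_mem_smul_iff (r := Units.mk0 (ε : ℂ) hεc) (s := z)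
        (a := (ε : ℂ)⁻¹ • y)).mpr hz
      have h3 : (Units.mk0 (ε : ℂ) hεc) • ((ε : ℂ)⁻¹ • y) = y := by
        rw [Units.smul_def, smul_smul]
        simp [hεc]
      rw [h3] at h2
      simpa [Units.smul_def] using h2
    have h2 := h _ this
    rw [norm_mul, Complex.norm_real, Real.norm_of_nonneg hε.le] at h2
    nlinarith [norm_nonneg z]
  obtain ⟨g, hg, hn⟩ := similar_contraction h1
  have h2 : τ (g * ((ε : ℂ)⁻¹ • y) * Ring.inverse g) = (ε : ℂ)⁻¹ • τ y := by
    rw [hτ, ← mul_assoc, Ring.inverse_mul_cancel g hg, one_mul, map_smul]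
  have h3 : ‖(ε : ℂ)⁻¹ • τ y‖ ≤ ‖τ‖ := by
    rw [← h2]
    calc _ ≤ ‖τ‖ * ‖g * ((ε : ℂ)⁻¹ • y) * Ring.inverse g‖ := τ.le_opNorm _
      _ ≤ ‖τ‖ * 1 := by gcongr
      _ = ‖τ‖ := mul_one _
  rw [norm_smul, norm_inv, Complex.norm_real, Real.norm_of_nonneg hε.le,
    inv_mul_le_iff₀ hε] at h3
  linarith

end

end Pool.Agent.SpectralVisible
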